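import Pool.Agent.X169.HT.Glob

/-!
# The Hilbert-Smith conjecture for locally almost affine or monotone actions

Let `X` be a Hausdorff space with a dense connected set `R` of points with locally Euclidean
neighbourhoods (for example the topologically regular part of an Alexandrov space). Let a locally
compact group `G` act faithfully and continuously on `X`. Suppose that every point `x` of `R` has a
topological chart `φ` and a neighbourhood `V` of the identity, both depending on `x`, such that
in this chart either

* the elements `f` of `V` are almost affine near `x`: the second differences
  `f (p + v) + f (p - v) - 2 f (p)` are at most one half of the first differences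
  `f (p + v) - f (p)`, in norm; or
* the elements of `V` are strictly monotone on the local orbits of `V` near `x`: they turn no
  displacement of an element of `V` by a right angle or more.

Then `G` is a Lie group. The constant one half does not depend on the dimension, the charts need not
be compatible, and the maps need not be differentiable, Lipschitz, Sobolev or quasiconformal.

Proof (files in `Pool/Agent/X169/HT/`). By Baire's theorem the maps of a coset `h K` of an open
subgroup satisfy the inequality on one ball. If `g` in `K` moves `p` to `p + v`, then the
differences of the maps of the coset along `v` have mean zero, so one of them forms an obtuse angle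
with a given one. Comparing the two maps at `p - v`, `p`, `p + v`, `p + 2 v` shows that the
diameter of the orbits decreases by a factor `20 / 21` on a smaller ball; so an open subgroup acts
trivially near `x`. These local statements are joined by Newman's theorem on periodic
homeomorphisms of manifolds, which is proved here in full generality: the average of the powers of a
homeomorphism of prime order is made generic by invariant perturbations, so that its fibre splits
into small pieces which are permuted cyclically, and the degree theory of the starting library gives
a contradiction. The Gleason-Yamabe theorem of the starting library reduces the general case to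
profinite groups.
-/

namespace Pool.Agent.Results.MP_afaf30_gt.AlmostAffineActions

open Set Filter Topology
open scoped RealInnerProductSpace

/-- On a ball about `z` the second differences of `f` are at most one half of the first ones. -/
def AlmostAffine {n : ℕ} (f : EuclideanSpace ℝ (Fin n) → EuclideanSpace ℝ (Fin n))
    (z : EuclideanSpace ℝ (Fin n)) : Prop :=
  ∃ r : ℝ, 0 < r ∧ ∀ p v : EuclideanSpace ℝ (Fin n), ‖p - z‖ ≤ r → ‖v‖ ≤ r →
    ‖f (p + v) + f (p - v) - (2 : ℝ) • f p‖ ≤ 1 / 2 * ‖f (p + v) - f p‖

/-- `g` is strictly monotone, in the coordinates `φ`, on the local orbits of `V` near `x`. -/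
def MonotoneNear {X G : Type} [TopologicalSpace X] [SMul G X] {n : ℕ}
    (φ : X → EuclideanSpace ℝ (Fin n)) (V : Set G) (x : X) (g : G) : Prop :=
  ∃ W ∈ 𝓝 x, ∀ y ∈ W, ∀ h ∈ V, h • y ∈ W → h • y ≠ y →
    0 < ⟪φ (g • h • y) - φ (g • y), φ (h • y) - φ y⟫

/-- The Hilbert-Smith conjecture for locally almost affine or monotone actions. -/
theorem result :
    ∀ (X : Type) [TopologicalSpace X] [T2Space X] (R : Set X), Dense R → IsPreconnected R →
      ∀ (G : Type) [Group G] [TopologicalSpace G] [IsTopologicalGroup G] [LocallyCompactSpace G]
        [MulAction G X] [ContinuousSMul G X] [FaithfulSMul G X],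
        (∀ x ∈ R, ∃ V ∈ 𝓝 (1 : G), ∃ (n : ℕ)
          (φ : OpenPartialHomeomorph X (EuclideanSpace ℝ (Fin n))), x ∈ φ.source ∧
          ((∀ g ∈ V, g • x ∈ φ.source → AlmostAffine (fun y => φ (g • φ.symm y)) (φ x)) ∨
            ∀ g ∈ V, g • x ∈ φ.source → MonotoneNear (fun y => φ y) V x g)) →
        ∃ (m : ℕ) (_ : ChartedSpace (EuclideanSpace ℝ (Fin m)) G),
          LieGroup (modelWithCornersSelf ℝ (EuclideanSpace ℝ (Fin m)))
            ((⊤ : ℕ∞) : WithTop ℕ∞) G := by
  intro X _ _ R hd hc G _ _ _ _ _ _ _ hR
  exact Pool.Agent.X169.HT.lie_main R hd hc hR

end Pool.Agent.Results.MP_afaf30_gt.AlmostAffineActions
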