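import Pool.Agent.X169.HS.MX

/-!
# The Hilbert-Smith conjecture for locally monotone actions

Let `X` be a Hausdorff space with countable neighbourhood bases (for example an Alexandrov space of
any dimension, a manifold, or any metric space), with a dense connected set `R`. Let a locally
compact group `G` act faithfully and continuously on `X`. Suppose that every point `x` of `R` has
a neighbourhood with a continuous map `Ψ` to a Hilbert space, such that the elements `g` of a
neighbourhood `V` of the identity are strictly monotone on the local orbits near `x`: for `h` in
`V` and `y`, `h y` close to `x` with `h y ≠ y`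

  `⟪Ψ (g h y) - Ψ (g y), Ψ (h y) - Ψ y⟫ > 0`,

so that `g` turns no displacement of an element of `V` by a right angle or more. Then `G` is a Lie
group. In particular this holds if `X` is a connected manifold and the elements near the identity
act in charts by maps which are locally strictly monotone in the sense of Minty and Browder
(for example gradients of strictly convex functions). Such maps need not be Hölder continuous nor of
any Sobolev class.

Proof (files in `Pool/Agent/X169/HS/`). For a small compact subgroup `K` and `g` in `K` the vectors
`Ψ (k g y) - Ψ (k y)` have mean zero over `k`, but a positive mean product with `Ψ (g y) - Ψ y`.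
Baire's theorem is used to have one neighbourhood for a coset of an open subgroup, the same
argument for a finite group gives Newman's theorem, and the Gleason-Yamabe theorem of the starting
library reduces the general case to profinite groups.
-/

namespace Pool.Agent.Results.MP_afaf30_gt.MonotoneActions

open Set Filter Topology
open scoped RealInnerProductSpace

/-- `g` is strictly monotone, in the coordinates `Ψ`, on the local orbits of `V` near `x`. -/
def MonotoneNear {X F G : Type} [TopologicalSpace X] [NormedAddCommGroup F]
    [InnerProductSpace ℝ F] [SMul G X] (Ψ : X → F) (V : Set G) (x : X) (g : G) : Prop :=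
  ∃ W ∈ 𝓝 x, ∀ y ∈ W, ∀ h ∈ V, h • y ∈ W → h • y ≠ y →
    0 < ⟪Ψ (g • h • y) - Ψ (g • y), Ψ (h • y) - Ψ y⟫

/-- The Hilbert-Smith conjecture for locally monotone actions. -/
theorem result :
    ∀ (X : Type) [TopologicalSpace X] [T2Space X] [FirstCountableTopology X] (R : Set X),
      Dense R → IsPreconnected R →
      ∀ (G : Type) [Group G] [TopologicalSpace G] [IsTopologicalGroup G] [LocallyCompactSpace G]
        [MulAction G X] [ContinuousSMul G X] [FaithfulSMul G X],
        ∀ V ∈ 𝓝 (1 : G),
        (∀ x ∈ R, ∃ (F : Type) (_ : NormedAddCommGroup F) (_ : InnerProductSpace ℝ F)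
          (_ : CompleteSpace F) (Ψ : X → F) (O : Set X), IsOpen O ∧ x ∈ O ∧ ContinuousOn Ψ O ∧
          ∀ g ∈ V, g • x ∈ O → MonotoneNear Ψ V x g) →
        ∃ (m : ℕ) (_ : ChartedSpace (EuclideanSpace ℝ (Fin m)) G),
          LieGroup (modelWithCornersSelf ℝ (EuclideanSpace ℝ (Fin m)))
            ((⊤ : ℕ∞) : WithTop ℕ∞) G := by
  intro X _ _ _ R hd hc G _ _ _ _ _ _ _ V hV hR
  exact Pool.Agent.X169.HS.lie_mainX V hV R hd hc hR

end Pool.Agent.Results.MP_afaf30_gt.MonotoneActions
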