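import Pool.Agent.X201.HS.Main

/-!
# The Hilbert-Smith conjecture for pointwise Hölder homeomorphisms

Let `n ≥ 1` and let `X` be a metric space in which the points with a neighbourhood bi-Lipschitz
equivalent to an open subset of `ℝⁿ` form a dense connected set (for example a connected Lipschitz
manifold, or an Alexandrov space of dimension `n`). Every locally compact group which acts faithfully
and continuously on `X`, such that every element near the identity is Hölder with an exponent larger
than `(n - 1) / n` at all regular points except countably many, is a Lie group. The Hölder constants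
and the exponents depend on the point and on the element in an arbitrary way.

The starting result `MP_afaf30_gt.PointwiseLipschitz` is the case of exponent one. The starting result
`MP_afaf30_gt.SobolevExponentAboveNMinusOne` contains the homeomorphisms which are uniformly Hölder
with one exponent larger than `(n - 1) / n`.

Proof (files in `Pool/Agent/X201/HS/`). Baire's theorem on the closed set of the points near which no
open subgroup acts trivially and on the group gives such a point `y` and a coset `h K` of an open
subgroup, the maps of which are uniformly Hölder at all such points near `y`; near all other points an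
open subgroup acts trivially. Let `F` be the average over `h P`, `P` the closure of the powers of an
element `g` of `p`-power type of `K`. It is Hölder with an exponent larger than `(n - 1) / n` at all
points off a countable set, so it maps every hyperplane to a null set, and almost every fibre of `F` is
separated by hyperplanes. The map `h⁻¹ F` is near the identity, so the degree argument of the starting
library (a fibre cannot be permuted cyclically by `g` without fixed points) shows that a dense set of
points is fixed by `g`. The global part follows the starting results.
-/

namespace Pool.Agent.Results.MP_afaf30_gt.PointwiseHolder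

open Set Metric Filter Topology

/-- A bi-Lipschitz chart with values in Euclidean `n`-space. -/
def BiLip {X : Type} [MetricSpace X] (n : ℕ) (U : Set X) (ψ : X → EuclideanSpace ℝ (Fin n))
    (L : ℝ) : Prop :=
  IsOpen U ∧ IsOpen (ψ '' U) ∧
    ∀ a ∈ U, ∀ b ∈ U, dist (ψ a) (ψ b) ≤ L * dist a b ∧ dist a b ≤ L * dist (ψ a) (ψ b)

/-- The points with a neighbourhood which is bi-Lipschitz equivalent to an open subset of Euclidean
`n`-space. -/
def Reg (n : ℕ) (X : Type) [MetricSpace X] : Set X :=
  {x | ∃ (U : Set X) (ψ : X → EuclideanSpace ℝ (Fin n)) (L : ℝ), x ∈ U ∧ BiLip n U ψ L}

/-- `f` is Hölder at the point `x` with an exponent larger than `(n - 1) / n`. -/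
def HolderAt (n : ℕ) {X : Type} [MetricSpace X] (f : X → X) (x : X) : Prop :=
  ∃ N δ α : ℝ, 0 < δ ∧ ((n : ℝ) - 1) / n < α ∧
    ∀ y, dist y x < δ → dist (f y) (f x) ≤ N * dist y x ^ α

/-- The Hilbert-Smith conjecture for pointwise Hölder homeomorphisms. -/
theorem result :
    ∀ (n : ℕ), 1 ≤ n → ∀ (X : Type) [MetricSpace X],
      Dense (Reg n X) → IsPreconnected (Reg n X) →
      ∀ (G : Type) [Group G] [TopologicalSpace G] [IsTopologicalGroup G] [LocallyCompactSpace G]
        [MulAction G X] [ContinuousSMul G X] [FaithfulSMul G X],
        (∀ᶠ g in 𝓝 (1 : G),
          {x : X | x ∈ Reg n X ∧ ¬ HolderAt n (fun x : X => g • x) x}.Countable) →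
        ∃ (m : ℕ) (_ : ChartedSpace (EuclideanSpace ℝ (Fin m)) G),
          LieGroup (modelWithCornersSelf ℝ (EuclideanSpace ℝ (Fin m)))
            ((⊤ : ℕ∞) : WithTop ℕ∞) G := by
  intro n hn X _ hd hc G _ _ _ _ _ _ _ hs
  exact Pool.Agent.X201.HS.lie_final hn hd hc hs

end Pool.Agent.Results.MP_afaf30_gt.PointwiseHolder
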